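import Pool.Agent.Helper11.N2YB

/-!
# Null 2-type surfaces: row ASM
-/

set_option autoImplicit false

namespace N211

open N2

theorem st_ASM (h1 : ST_G1) (h4 : ST_G4) (hI : ST_I) (hC : ST_CON) (hL : ST_LIO) (hYB : ST_YB)
    (hF : ST_FBD) (hB : ST_BJ) (hb : ST_ASMb) : ST_ASM := by
  intro N hP
  obtain ⟨M, hM⟩ := hYB 4 N hP
  obtain ⟨i1, i2, i3, i4⟩ := hI Sm 4 N hP
  obtain ⟨c, hc⟩ := hC _ i1 i2
  obtain ⟨-, -, -, -, -, -, g3, g4⟩ := h4 Sm 4 N
  have hcj : cj N.g = N.g := (h1 Sm 4 N).2.2.1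
  have key : ∀ p, ∃ F0 g0 V0 Q0 : ℝ, 0 < F0 ∧ 0 ≤ g0 ∧ 0 ≤ V0 ∧ 0 ≤ Q0 ∧
      (ev p N.g) = (g0 : ℂ) ∧ (ev p N.y) = ((1 - N.k * g0 : ℝ) : ℂ) ∧
      c = ((F0 ^ 2 * (1 - N.k * g0) ^ 3 : ℝ) : ℂ) ∧
      (ev p (D' (D N.g))).re = 2 * (V0 + Q0 * F0⁻¹ - N.k * (1 - N.k * g0) * g0 * F0) := by
    intro p
    obtain ⟨F0, g0, V0, Q0, a0, hF, hg, hV, hQ, ha0, eF, eG, eg, eV, eQ, ea, ey⟩ := vals N (ev p)
    refine ⟨F0, g0, V0, Q0, hF, hg, hV, hQ, eg, ey, ?_, ?_⟩
    · have e := congrArg (ev p).h hc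
      rw [(ev p).hC, map_mul, map_mul, map_mul, map_mul] at e
      rw [← e]
      rw [eF, ey]
      push_cast
      ring
    · have e3 := congrArg (ev p).h g4
      rw [map_add, map_add, map_mul, map_mul, map_mul] at e3
      have e4 : (a0 : ℂ) = ((1 - N.k * g0 : ℝ) : ℂ) * ((1 - N.k * g0 : ℝ) : ℂ) * (F0 : ℂ)
          + (Q0 : ℂ) * ((F0⁻¹ : ℝ) : ℂ) + (V0 : ℂ) := by
        rw [← ea, ← ey, ← eF, ← eQ, ← eG, ← eV]
        exact e3
      have e5 : a0 = (1 - N.k * g0) * (1 - N.k * g0) * F0 + Q0 * F0⁻¹ + V0 := by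
        exact_mod_cast e4
      have e6 := congrArg (ev p).h g3
      rw [map_sub, map_mul, map_mul, map_mul] at e6
      have e7 : ev p (D' (D N.g)) = ((2 * a0 - 2 * ((1 - N.k * g0) * F0) : ℝ) : ℂ) := by
        rw [e6, ea, ey, eF, map_ofNat]
        push_cast
        ring
      rw [e7, Complex.ofReal_re, e5]
      ring
  have sub : (∀ p, 0 ≤ (ev p (D' (D N.g))).re) → ∀ p p', ev p N.g = ev p' N.g := fun h =>
    hL N.g hcj h ⟨M, hM⟩
  obtain ⟨F0, g0, V0, Q0, hF0, hg0, hV0, hQ0, eg0, ey0, ec0, -⟩ := key 0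
  set c0 : ℝ := F0 ^ 2 * (1 - N.k * g0) ^ 3 with hc0
  rcases lt_trichotomy c0 0 with hneg | hzero | hpos
  · rcases lt_or_gt_of_ne N.hk with hk | hk
    · refine sub fun p => ?_
      obtain ⟨F1, g1, V1, Q1, hF1, hg1, hV1, hQ1, -, -, -, e⟩ := key p
      rw [e]
      have t1 : 0 ≤ Q1 * F1⁻¹ := mul_nonneg hQ1 (inv_nonneg.2 hF1.le)
      have t2 : 0 ≤ 1 - N.k * g1 := by nlinarith
      have t3 : 0 ≤ (-N.k) * ((1 - N.k * g1) * (g1 * F1)) :=
        mul_nonneg (by linarith) (mul_nonneg t2 (mul_nonneg hg1 hF1.le))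
      nlinarith
    · refine sub fun p => ?_
      obtain ⟨F1, g1, V1, Q1, hF1, hg1, hV1, hQ1, -, -, ec, e⟩ := key p
      rw [e]
      have t0 : c0 = F1 ^ 2 * (1 - N.k * g1) ^ 3 := by
        have := ec0.symm.trans ec
        exact_mod_cast this
      have t1 : 0 ≤ Q1 * F1⁻¹ := mul_nonneg hQ1 (inv_nonneg.2 hF1.le)
      have t2 : 1 - N.k * g1 ≤ 0 := by
        by_contra h
        push Not at h
        have : 0 < F1 ^ 2 * (1 - N.k * g1) ^ 3 := by positivity
        linarith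
      have t3 : 0 ≤ N.k * ((-(1 - N.k * g1)) * (g1 * F1)) :=
        mul_nonneg hk.le (mul_nonneg (by linarith) (mul_nonneg hg1 hF1.le))
      nlinarith
  · intro p p'
    have aux : ∀ p, ev p N.g = ((1 / N.k : ℝ) : ℂ) := by
      intro p
      obtain ⟨F1, g1, V1, Q1, hF1, hg1, hV1, hQ1, eg, -, ec, e⟩ := key p
      have t0 : c0 = F1 ^ 2 * (1 - N.k * g1) ^ 3 := by
        have := ec0.symm.trans ec
        exact_mod_cast this
      rw [hzero] at t0
      have t1 : (1 - N.k * g1) ^ 3 = 0 := by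
        rcases mul_eq_zero.1 t0.symm with h | h
        · have : 0 < F1 ^ 2 := by positivity
          linarith
        · exact h
      have t2 : 1 - N.k * g1 = 0 := pow_eq_zero_iff (by norm_num) |>.1 t1
      have t3 : g1 = 1 / N.k := by
        rw [eq_div_iff N.hk]
        linarith
      rw [eg, t3]
    rw [aux p, aux p']
  · rcases lt_or_gt_of_ne N.hk with hk | hk
    · refine sub fun p => ?_
      obtain ⟨F1, g1, V1, Q1, hF1, hg1, hV1, hQ1, -, -, -, e⟩ := key p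
      rw [e]
      have t1 : 0 ≤ Q1 * F1⁻¹ := mul_nonneg hQ1 (inv_nonneg.2 hF1.le)
      have t2 : 0 ≤ 1 - N.k * g1 := by nlinarith
      have t3 : 0 ≤ (-N.k) * ((1 - N.k * g1) * (g1 * F1)) :=
        mul_nonneg (by linarith) (mul_nonneg t2 (mul_nonneg hg1 hF1.le))
      nlinarith
    · have hy : ∀ p, 0 < (ev p N.y).re := by
        intro p
        obtain ⟨F1, g1, V1, Q1, hF1, hg1, hV1, hQ1, -, ey, ec, e⟩ := key p
        have t0 : c0 = F1 ^ 2 * (1 - N.k * g1) ^ 3 := by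
          have := ec0.symm.trans ec
          exact_mod_cast this
        rw [ey, Complex.ofReal_re]
        by_contra h
        push Not at h
        have h3 : (1 - N.k * g1) ^ 3 ≤ 0 := by
          have : (1 - N.k * g1) ^ 3 = (1 - N.k * g1) * (1 - N.k * g1) ^ 2 := by ring
          rw [this]
          exact mul_nonpos_of_nonpos_of_nonneg h (sq_nonneg _)
        have : F1 ^ 2 * (1 - N.k * g1) ^ 3 ≤ 0 :=
          mul_nonpos_of_nonneg_of_nonpos (sq_nonneg _) h3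
        linarith
      obtain ⟨N', hk', hA', hps', hP'⟩ := hB 4 N hP hk hy (hF 4 N hP hk hy)
      have hgg : toSm N'.g = N.g := by
        unfold Nt.g N2.dot
        rw [map_sum]
        refine Finset.sum_congr rfl fun i _ => ?_
        rw [map_mul, hps']
      have hev : ∀ p, evb p N'.g = ev p N.g := fun p => by
        rw [evb_eq, hgg]
      have hy' : ∀ p, 0 < (evb p N'.y).re := by
        intro p
        obtain ⟨F1, g1, V1, Q1, hF1, hg1, hV1, hQ1, eg, ey, ec, e⟩ := key p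
        have t := val_y N' (evb p) g1 (by rw [hev, eg])
        rw [t, hk', ← ey]
        exact hy p
      intro p p'
      have := hb N' hP' (by rw [hk']; exact hk) hy' p p'
      rw [hev, hev] at this
      exact this

end N211
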