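import Pool.Agent.Helper11.N2YB

/-!
# Null 2-type surfaces: Theorem A (row THA)
-/

set_option autoImplicit false
open scoped ContDiff

namespace N211

open N2

/-- derivative of the complexification of a real function -/
theorem tha_fderiv_ofReal (l : ℝ × ℝ → ℝ) (p e : ℝ × ℝ) (h : DifferentiableAt ℝ l p) :
    fderiv ℝ (fun q => ((l q : ℝ) : ℂ)) p e = ((fderiv ℝ l p e : ℝ) : ℂ) := by
  have h1 : HasFDerivAt (fun q => ((l q : ℝ) : ℂ)) (Complex.ofRealCLM.comp (fderiv ℝ l p)) p :=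
    Complex.ofRealCLM.hasFDerivAt.comp p h.hasFDerivAt
  rw [h1.fderiv]
  rfl

/-- the curvature of the metric in terms of `ph_w` -/
theorem tha_curv {m : ℕ} (N : Nt Sm m) (g11 : ℝ × ℝ → ℝ)
    (hF : ∀ p, N.F.val p = ((g11 p / 2 : ℝ) : ℂ)) (p : ℝ × ℝ) :
    (ev p (D' N.ph)).re = 1 / 4 *
      (fderiv ℝ (fun q => fderiv ℝ (fun r => Real.log (g11 r)) q (1, 0)) p (1, 0)
      + fderiv ℝ (fun q => fderiv ℝ (fun r => Real.log (g11 r)) q (0, 1)) p (0, 1)) := by
  have hg : ∀ q, g11 q = 2 * (N.F.val q).re := fun q => by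
    rw [hF, Complex.ofReal_re]
    ring
  have hpos : ∀ q, 0 < g11 q := fun q => by
    obtain ⟨F0, h0, h1, -⟩ := val_F N (ev q)
    rw [ev_val, hF] at h1
    have : g11 q / 2 = F0 := by exact_mod_cast h1
    linarith
  have hgs : ContDiff ℝ ∞ g11 := by
    have e : g11 = fun q => 2 * (N.F.val q).re := funext hg
    rw [e]
    exact contDiff_const.mul (Complex.reCLM.contDiff.comp N.F.contDiff)
  set l : ℝ × ℝ → ℝ := fun r => Real.log (g11 r) with hl
  have hls : ContDiff ℝ ∞ l := hgs.log fun q => (hpos q).ne'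
  have hld : Differentiable ℝ l := hls.differentiable (by simp)
  have hls' : ∀ e : ℝ × ℝ, ContDiff ℝ ∞ (fun q => fderiv ℝ l q e) := fun e =>
    (ContDiff.fderiv_right (m := ∞) hls le_rfl).clm_apply contDiff_const
  have hld' : ∀ e : ℝ × ℝ, Differentiable ℝ (fun q => fderiv ℝ l q e) := fun e =>
    (hls' e).differentiable (by simp)
  set L : Sm := Sm.mk (fun q => ((l q : ℝ) : ℂ)) (Complex.ofRealCLM.contDiff.comp hls) with hL
  have hLf : ∀ q e, fderiv ℝ L.val q e = ((fderiv ℝ l q e : ℝ) : ℂ) := fun q e =>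
    tha_fderiv_ofReal l q e (hld q)
  -- `F = exp L / 2`
  have hFe : N.F.val = fun q => (1 / 2) * Complex.exp (L.val q) := by
    funext q
    rw [hF]
    have : L.val q = ((Real.log (g11 q) : ℝ) : ℂ) := rfl
    rw [this, ← Complex.ofReal_exp, Real.exp_log (hpos q)]
    push_cast
    ring
  have hFf : ∀ q e, fderiv ℝ N.F.val q e = N.F.val q * fderiv ℝ L.val q e := by
    intro q e
    have h1 : HasFDerivAt (fun q => (1 / 2) * Complex.exp (L.val q))
        ((1 / 2 : ℂ) • (Complex.exp (L.val q) • fderiv ℝ L.val q)) q :=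
      ((L.diff q).hasFDerivAt.cexp).const_mul (1 / 2)
    rw [hFe, h1.fderiv]
    simp only [_root_.smul_apply, smul_eq_mul]
    ring
  have hDF : D N.F = N.F * D L := by
    apply Sm.ext
    intro q
    rw [mul_val, D_val, D_val, hFf, hFf]
    ring
  have hph : N.ph = D L := by
    unfold Nt.ph
    rw [hDF]
    linear_combination (D L) * N.hFG
  have hDL : ∀ e, fderiv ℝ (D L).val p e = (1 / 2) *
      (((fderiv ℝ (fun q => fderiv ℝ l q (1, 0)) p e : ℝ) : ℂ)
        - Complex.I * ((fderiv ℝ (fun q => fderiv ℝ l q (0, 1)) p e : ℝ) : ℂ)) := by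
    intro e
    have e1 : (D L).val = fun q => (1 / 2 : ℂ) * (((fderiv ℝ l q (1, 0) : ℝ) : ℂ)
        - Complex.I * ((fderiv ℝ l q (0, 1) : ℝ) : ℂ)) := by
      funext q
      rw [D_val, hLf, hLf]
    have d1 : HasFDerivAt (fun q => ((fderiv ℝ l q (1, 0) : ℝ) : ℂ))
        (Complex.ofRealCLM.comp (fderiv ℝ (fun q => fderiv ℝ l q (1, 0)) p)) p :=
      Complex.ofRealCLM.hasFDerivAt.comp p (hld' (1, 0) p).hasFDerivAt
    have d2 : HasFDerivAt (fun q => ((fderiv ℝ l q (0, 1) : ℝ) : ℂ))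
        (Complex.ofRealCLM.comp (fderiv ℝ (fun q => fderiv ℝ l q (0, 1)) p)) p :=
      Complex.ofRealCLM.hasFDerivAt.comp p (hld' (0, 1) p).hasFDerivAt
    have d3 := (d1.sub (d2.const_mul Complex.I)).const_mul (1 / 2 : ℂ)
    rw [e1]
    have d4 := d3.fderiv
    have d5 : fderiv ℝ (fun q => (1 / 2 : ℂ) * (((fderiv ℝ l q (1, 0) : ℝ) : ℂ)
        - Complex.I * ((fderiv ℝ l q (0, 1) : ℝ) : ℂ))) p = _ := d4
    rw [d5]
    rfl
  rw [hph, ev_val, D'_val, hDL, hDL]
  set a := fderiv ℝ (fun q => fderiv ℝ l q (1, 0)) p (1, 0)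
  set b := fderiv ℝ (fun q => fderiv ℝ l q (0, 1)) p (1, 0)
  set c := fderiv ℝ (fun q => fderiv ℝ l q (1, 0)) p (0, 1)
  set d := fderiv ℝ (fun q => fderiv ℝ l q (0, 1)) p (0, 1)
  have : (1 / 2 : ℂ) * (1 / 2 * ((a : ℂ) - Complex.I * (b : ℂ))
      + Complex.I * (1 / 2 * ((c : ℂ) - Complex.I * (d : ℂ))))
      = ((1 / 4 * (a + d) : ℝ) : ℂ) + ((1 / 4 * (c - b) : ℝ) : ℂ) * Complex.I := by
    push_cast
    linear_combination (-(1 / 4 : ℂ) * (d : ℂ)) * Complex.I_sq
  rw [this]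
  simp

theorem st_THA (hCONV : ST_CONV) (hE : ST_EXH2) (h3 : ST_A3) (h4 : ST_A4) (h5 : ST_A5)
    (h6 : ST_A6) : ST_THA := by
  intro m f g11 g12 g22 dt Lap hI hcurv hex hc
  obtain ⟨c, hc0, hc⟩ := hc
  obtain ⟨N, x, hk, hps, hF, hx, hxr, hDx, hg⟩ := hCONV m f g11 g12 g22 dt Lap hI c hc0 hc
  have hExh : Exh N := by
    refine hE m N x hxr hDx ?_
    rcases hex with ⟨c1, hc1, h⟩ | h
    · refine Or.inl ⟨c1 / 2, by positivity, fun p => ?_⟩
      have h1 := h p
      rw [ev_val, hF, Complex.ofReal_re]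
      have h2 : c1 / 2 / (1 + (p.1 ^ 2 + p.2 ^ 2)) = c1 / (1 + (p.1 ^ 2 + p.2 ^ 2)) / 2 := by ring
      rw [h2]
      linarith
    · refine Or.inr fun R => ?_
      have e : ∀ p, ∑ i, (ev p (x i)).re ^ 2 = ‖f p‖ ^ 2 := fun p => by
        rw [EuclideanSpace.norm_sq_eq]
        refine Finset.sum_congr rfl fun i _ => ?_
        rw [ev_val, hx, Complex.ofReal_re, Real.norm_eq_abs, sq_abs]
      rcases lt_or_ge R 0 with hR | hR
      · have : {p | ∑ i, (ev p (x i)).re ^ 2 ≤ R} = ∅ := by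
          ext p
          simp only [Set.mem_ofPred_eq, Set.mem_empty_iff_false, iff_false, not_le]
          rw [e]
          exact lt_of_lt_of_le hR (sq_nonneg _)
        rw [this]
        exact isCompact_empty
      · have : {p | ∑ i, (ev p (x i)).re ^ 2 ≤ R} = {p | ‖f p‖ ≤ Real.sqrt R} := by
          ext p
          simp only [Set.mem_ofPred_eq]
          rw [e]
          constructor
          · intro h
            exact Real.le_sqrt_of_sq_le h
          · intro h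
            calc ‖f p‖ ^ 2 ≤ (Real.sqrt R) ^ 2 := pow_le_pow_left₀ (norm_nonneg _) h 2
              _ = R := Real.sq_sqrt hR
        rw [this]
        exact h _
  have fin : (∀ p p', ev p N.g = ev p' N.g) → ∃ k : ℝ, ∀ p, ‖Lap f p‖ = k := fun h => by
    refine ⟨‖Lap f 0‖, fun p => ?_⟩
    have e1 := hg p
    have e2 := hg 0
    rw [h p 0, e2] at e1
    have hcc : (0 : ℝ) < c ^ 2 := by positivity
    have e3 : ‖Lap f 0‖ ^ 2 = ‖Lap f p‖ ^ 2 := by
      have := (div_left_inj' hcc.ne').1 e1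
      exact this
    exact (pow_left_inj₀ (norm_nonneg _) (norm_nonneg _) (by norm_num)).1 e3.symm
  rcases lt_or_gt_of_ne N.hk with hk0 | hk0
  · refine fin fun p p' => ?_
    rw [h6 m N hk0 hExh p, h6 m N hk0 hExh p']
  · have hcv : ∀ p, (ev p (D' N.ph)).re ≤ 0 := fun p => by
      rw [tha_curv N g11 hF p]
      have := hcurv p
      linarith
    exact fin (h5 m N (h4 m N hcv ⟨25, h3 m N hk0 hExh hcv⟩))

end N211
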