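import Pool.Agent.Helper5.N2.Stmts2

/-!
# Null 2-type surfaces: character values, row YB
-/

set_option autoImplicit false

namespace N211

open N2

section
variable {R : Type} [CommRing R] [DR R] {m : ℕ}

/-- the value of `F` at a character is a positive real number -/
theorem val_F (N : Nt R m) (χ : Ev R) : ∃ F0 : ℝ, 0 < F0 ∧ χ N.F = (F0 : ℂ) ∧
    χ N.G = ((F0⁻¹ : ℝ) : ℂ) := by
  have h1 := χ.dot_cjv N.A
  rw [N.hAB] at h1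
  have h2 : χ N.F * χ N.G = 1 := by
    have := congrArg χ.h N.hFG
    rwa [map_mul, map_one] at this
  have h0 : 0 ≤ ∑ i, ‖χ (N.A i)‖ ^ 2 := Finset.sum_nonneg fun i _ => by positivity
  have hne : (∑ i, ‖χ (N.A i)‖ ^ 2) ≠ 0 := by
    intro h
    rw [h1, h] at h2
    simp at h2
  refine ⟨_, lt_of_le_of_ne h0 (Ne.symm hne), h1, ?_⟩
  rw [h1] at h2
  rw [Complex.ofReal_inv]
  exact (inv_eq_of_mul_eq_one_right h2).symm

/-- the value of `v · cj v` is a nonnegative real number -/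
theorem val_norm (χ : Ev R) (a : Fin m → R) : ∃ r : ℝ, 0 ≤ r ∧ χ (N2.dot a (cjv a)) = (r : ℂ) :=
  ⟨_, Finset.sum_nonneg fun i _ => by positivity, χ.dot_cjv a⟩

theorem val_g (N : Nt R m) (χ : Ev R) : ∃ r : ℝ, 0 ≤ r ∧ χ N.g = (r : ℂ) := by
  obtain ⟨r, h0, h1⟩ := val_norm χ N.ps
  rw [N.hpr] at h1
  exact ⟨r, h0, h1⟩

theorem val_V (N : Nt R m) (χ : Ev R) : ∃ r : ℝ, 0 ≤ r ∧ χ N.V = (r : ℂ) :=
  val_norm χ N.ta

theorem val_Phi (N : Nt R m) (χ : Ev R) : ∃ r : ℝ, 0 ≤ r ∧ χ (N2.dot N.Ph N.Ph') = (r : ℂ) :=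
  val_norm χ N.Ph

theorem val_K (N : Nt R m) (χ : Ev R) : χ N.K = (N.k : ℂ) := χ.hC _

theorem val_y (N : Nt R m) (χ : Ev R) (g0 : ℝ) (hg : χ N.g = (g0 : ℂ)) :
    χ N.y = ((1 - N.k * g0 : ℝ) : ℂ) := by
  unfold Nt.y
  rw [map_sub, map_one, map_mul, hg, val_K]
  push_cast
  ring

/-- all the values -/
theorem vals (N : Nt R m) (χ : Ev R) : ∃ F0 g0 V0 Q0 a0 : ℝ, 0 < F0 ∧ 0 ≤ g0 ∧ 0 ≤ V0 ∧ 0 ≤ Q0 ∧
    0 ≤ a0 ∧ χ N.F = (F0 : ℂ) ∧ χ N.G = ((F0⁻¹ : ℝ) : ℂ) ∧ χ N.g = (g0 : ℂ) ∧ χ N.V = (V0 : ℂ) ∧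
    χ (N.q * N.q') = (Q0 : ℂ) ∧ χ (N2.dot N.Ph N.Ph') = (a0 : ℂ) ∧
    χ N.y = ((1 - N.k * g0 : ℝ) : ℂ) := by
  obtain ⟨F0, hF, hF1, hG⟩ := val_F N χ
  obtain ⟨g0, hg, hg1⟩ := val_g N χ
  obtain ⟨V0, hV, hV1⟩ := val_V N χ
  obtain ⟨a0, ha, ha1⟩ := val_Phi N χ
  refine ⟨F0, g0, V0, ‖χ N.q‖ ^ 2, a0, hF, hg, hV, by positivity, ha, hF1, hG, hg1, hV1, ?_, ha1,
    val_y N χ g0 hg1⟩
  have h : χ (N.q * N.q') = χ N.q * (starRingEnd ℂ) (χ N.q) := by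
    rw [map_mul]
    congr 1
    exact χ.hcj N.q
  rw [h, Complex.mul_conj, Complex.normSq_eq_norm_sq]

end

theorem st_YB (h4 : ST_G4) (hI : ST_I) (hC : ST_CON) : ST_YB := by
  intro m N hP
  obtain ⟨i1, i2, i3, i4⟩ := hI Sm m N hP
  obtain ⟨c, hc⟩ := hC _ i1 i2
  obtain ⟨a, ha⟩ := hC _ i3 i4
  obtain ⟨-, -, -, -, -, -, -, g4⟩ := h4 Sm m N
  have key : ∀ p, ∃ F0 g0 : ℝ, 0 < F0 ∧ 0 ≤ g0 ∧ (ev p N.g) = (g0 : ℂ) ∧
      ‖c‖ = F0 ^ 2 * |1 - N.k * g0| ^ 3 ∧ (1 - N.k * g0) ^ 2 * F0 ≤ ‖a‖ := by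
    intro p
    obtain ⟨F0, g0, V0, Q0, a0, hF, hg, hV, hQ, ha0, eF, eG, eg, eV, eQ, ea, ey⟩ := vals N (ev p)
    refine ⟨F0, g0, hF, hg, eg, ?_, ?_⟩
    · have e := congrArg (ev p).h hc
      rw [(ev p).hC, map_mul, map_mul, map_mul, map_mul] at e
      rw [← e]
      rw [eF, ey, norm_mul, norm_mul, norm_mul, norm_mul, Complex.norm_real, Complex.norm_real,
        Real.norm_eq_abs, Real.norm_eq_abs, abs_of_pos hF]
      ring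
    · have e := congrArg (ev p).h ha
      rw [(ev p).hC] at e
      have e2 : a = (a0 : ℂ) := by
        rw [← e]
        exact ea
      have e3 := congrArg (ev p).h g4
      rw [map_add, map_add, map_mul, map_mul, map_mul] at e3
      have e4 : (a0 : ℂ) = ((1 - N.k * g0 : ℝ) : ℂ) * ((1 - N.k * g0 : ℝ) : ℂ) * (F0 : ℂ)
          + (Q0 : ℂ) * ((F0⁻¹ : ℝ) : ℂ) + (V0 : ℂ) := by
        rw [← ea, ← ey, ← eF, ← eQ, ← eG, ← eV]
        exact e3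
      have e5 : a0 = (1 - N.k * g0) * (1 - N.k * g0) * F0 + Q0 * F0⁻¹ + V0 := by
        exact_mod_cast e4
      rw [e2, Complex.norm_real, Real.norm_eq_abs, abs_of_nonneg ha0]
      have : 0 ≤ Q0 * F0⁻¹ := mul_nonneg hQ (inv_nonneg.2 hF.le)
      nlinarith
  refine ⟨(1 + ‖a‖ ^ 2 / ‖c‖) / |N.k|, fun p => ?_⟩
  obtain ⟨F0, g0, hF, hg, eg, e1, e2⟩ := key p
  rw [eg, Complex.ofReal_re, le_div_iff₀ (abs_pos.2 N.hk)]
  have hy : |1 - N.k * g0| ≤ ‖a‖ ^ 2 / ‖c‖ := by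
    rcases eq_or_ne c 0 with h0 | h0
    · rw [h0, norm_zero] at e1
      have h3 : |1 - N.k * g0| ^ 3 = 0 := by
        rcases mul_eq_zero.1 e1.symm with h | h
        · have : 0 < F0 ^ 2 := by positivity
          linarith
        · exact h
      have h4 : |1 - N.k * g0| = 0 := by
        exact pow_eq_zero_iff (by norm_num) |>.1 h3
      rw [h4]
      positivity
    · have hc0 : 0 < ‖c‖ := norm_pos_iff.2 h0
      rw [le_div_iff₀ hc0, e1]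
      have h5 : ((1 - N.k * g0) ^ 2 * F0) ^ 2 ≤ ‖a‖ ^ 2 :=
        pow_le_pow_left₀ (by positivity) e2 2
      have h6 : |1 - N.k * g0| * (F0 ^ 2 * |1 - N.k * g0| ^ 3)
          = ((1 - N.k * g0) ^ 2 * F0) ^ 2 := by
        have : (1 - N.k * g0) ^ 2 = |1 - N.k * g0| ^ 2 := (sq_abs _).symm
        rw [this]
        ring
      rw [h6]
      exact h5
  have h7 : g0 * |N.k| = |N.k * g0| := by
    rw [abs_mul, abs_of_nonneg hg]
    ring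
  rw [h7]
  have h8 : |N.k * g0| ≤ 1 + |1 - N.k * g0| := by
    have : N.k * g0 = 1 - (1 - N.k * g0) := by ring
    calc |N.k * g0| = |1 - (1 - N.k * g0)| := by rw [← this]
      _ ≤ |(1 : ℝ)| + |1 - N.k * g0| := abs_sub _ _
      _ = 1 + |1 - N.k * g0| := by rw [abs_one]
  linarith

end N211
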